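import Pool.Agent.Helper454.EL.Both

set_option autoImplicit false

namespace Pool.Agent.Results.MP_87840f_co.CoreSpectrum

/-- For every `n ≥ 3`:
(i) the pairs (number of edges, number of vertices) of the 3-chromatic `n`-uniform cliques whose
vertices can be coloured with `2 n - 1` colours so that the vertices of each edge get distinct
colours are exactly the pairs `(C(2n-1, n), v)` with `2n - 1 ≤ v ≤ C(2n-2, n-1) / 2 + 2n - 2`;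
(ii) the numbers of vertices of the 3-chromatic `n`-uniform cliques which contain all `n`-subsets
of some set of `2 n - 3` vertices are exactly the integers from `2n - 1` to
`C(2n-2, n-1) / 2 + 2n - 2`. -/
theorem result (n : ℕ) (hn : 3 ≤ n) :
    {p : ℕ × ℕ | ∃ F : Finset (Finset ℕ),
      (∀ e ∈ F, e.card = n) ∧
      (∀ e ∈ F, ∀ f ∈ F, (e ∩ f).Nonempty) ∧
      (¬ ∃ c : ℕ → Fin 2, ∀ e ∈ F, ∃ x ∈ e, ∃ y ∈ e, c x ≠ c y) ∧
      (∃ c : ℕ → Fin 3, ∀ e ∈ F, ∃ x ∈ e, ∃ y ∈ e, c x ≠ c y) ∧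
      (∃ c : ℕ → Fin (2 * n - 1), ∀ e ∈ F, ∀ x ∈ e, ∀ y ∈ e, c x = c y → x = y) ∧
      p = (F.card, (F.biUnion id).card)} =
    {p : ℕ × ℕ | p.1 = (2 * n - 1).choose n ∧ 2 * n - 1 ≤ p.2 ∧
      p.2 ≤ (2 * n - 2).choose (n - 1) / 2 + (2 * n - 2)} ∧
    {m : ℕ | ∃ F : Finset (Finset ℕ),
      (∀ e ∈ F, e.card = n) ∧
      (∀ e ∈ F, ∀ f ∈ F, (e ∩ f).Nonempty) ∧
      (¬ ∃ c : ℕ → Fin 2, ∀ e ∈ F, ∃ x ∈ e, ∃ y ∈ e, c x ≠ c y) ∧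
      (∃ c : ℕ → Fin 3, ∀ e ∈ F, ∃ x ∈ e, ∃ y ∈ e, c x ≠ c y) ∧
      (∃ S : Finset ℕ, S.card = 2 * n - 3 ∧ ∀ A ⊆ S, A.card = n → A ∈ F) ∧
      m = (F.biUnion id).card} =
    {m : ℕ | 2 * n - 1 ≤ m ∧ m ≤ (2 * n - 2).choose (n - 1) / 2 + (2 * n - 2)} :=
  ⟨Pool.Agent.Helper454.EL.spectrum n (by omega), Pool.Agent.Helper454.EL.spectrum_core n hn⟩

end Pool.Agent.Results.MP_87840f_co.CoreSpectrum
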