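import Pool.Agent.Helper454.EL.Greatest

set_option autoImplicit false

namespace Pool.Agent.Results.MP_87840f_co.RainbowSpectrum

/-- For every `n ≥ 2`, the pairs (number of edges, number of vertices) of the 3-chromatic
`n`-uniform cliques whose vertices can be coloured with `2 n - 1` colours so that the vertices of
each edge get distinct colours are exactly the pairs `(C(2n-1, n), v)` with
`2n - 1 ≤ v ≤ C(2n-2, n-1) / 2 + 2n - 2`. -/
theorem result (n : ℕ) (hn : 2 ≤ n) :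
    {p : ℕ × ℕ | ∃ F : Finset (Finset ℕ),
      (∀ e ∈ F, e.card = n) ∧
      (∀ e ∈ F, ∀ f ∈ F, (e ∩ f).Nonempty) ∧
      (¬ ∃ c : ℕ → Fin 2, ∀ e ∈ F, ∃ x ∈ e, ∃ y ∈ e, c x ≠ c y) ∧
      (∃ c : ℕ → Fin 3, ∀ e ∈ F, ∃ x ∈ e, ∃ y ∈ e, c x ≠ c y) ∧
      (∃ c : ℕ → Fin (2 * n - 1), ∀ e ∈ F, ∀ x ∈ e, ∀ y ∈ e, c x = c y → x = y) ∧
      p = (F.card, (F.biUnion id).card)} =
    {p : ℕ × ℕ | p.1 = (2 * n - 1).choose n ∧ 2 * n - 1 ≤ p.2 ∧
      p.2 ≤ (2 * n - 2).choose (n - 1) / 2 + (2 * n - 2)} :=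
  Pool.Agent.Helper454.EL.spectrum n hn

end Pool.Agent.Results.MP_87840f_co.RainbowSpectrum
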