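import Mathlib

namespace Pool.Agent.Results.MP_87840f_co.VertexSpectrum

open Finset

/-- `F` is `n`-uniform: every edge has exactly `n` elements. -/
def Uniform (n : ℕ) (F : Finset (Finset ℕ)) : Prop := ∀ E ∈ F, E.card = n

/-- `F` is a clique: any two edges have nonempty intersection. -/
def IsClique (F : Finset (Finset ℕ)) : Prop := ∀ E ∈ F, ∀ E' ∈ F, (E ∩ E').Nonempty

/-- `c` is a proper `k`-colouring of the vertices of `F`: no edge is monochromatic. -/
def Colourable (k : ℕ) (F : Finset (Finset ℕ)) : Prop :=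
  ∃ c : ℕ → Fin k, ∀ E ∈ F, ¬ ∃ a : Fin k, ∀ x ∈ E, c x = a

/-- `F` is 3-chromatic: it has a proper 3-colouring but no proper 2-colouring. -/
def ThreeChromatic (F : Finset (Finset ℕ)) : Prop := Colourable 3 F ∧ ¬ Colourable 2 F

/-- The vertex set of `F`. -/
def vertices (F : Finset (Finset ℕ)) : Finset ℕ := F.biUnion id

/-! ### Every uniform clique is 3-colourable -/

theorem colourable_three {n : ℕ} (hn : 2 ≤ n) {F : Finset (Finset ℕ)} (hu : Uniform n F)
    (hc : IsClique F) : Colourable 3 F := by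
  rcases F.eq_empty_or_nonempty with rfl | ⟨E, hE⟩
  · exact ⟨fun _ => 0, fun E hE => absurd hE (notMem_empty E)⟩
  have hEc := hu E hE
  obtain ⟨x, hx⟩ : E.Nonempty := card_pos.mp (by omega)
  refine ⟨fun v => if v = x then 0 else if v ∈ E then 1 else 2, ?_⟩
  rintro G hG ⟨a, ha⟩
  have hGc := hu G hG
  obtain ⟨y, hy⟩ := hc G hG E hE
  rw [mem_inter] at hy
  have hay := ha y hy.1
  beta_reduce at hay
  by_cases hyx : y = x
  · -- colour 0, but `G` has a second vertex
    subst hyx
    rw [if_pos rfl] at hay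
    subst hay
    obtain ⟨z, hz, hzy⟩ := exists_mem_ne (by omega : 1 < G.card) y
    have := ha z hz
    beta_reduce at this
    rw [if_neg hzy] at this
    split_ifs at this
    · exact absurd this (by decide)
    · exact absurd this (by decide)
  · rw [if_neg hyx, if_pos hy.2] at hay
    subst hay
    -- all of `G` lies in `E` minus `x`
    have hsub : G ⊆ E.erase x := by
      intro z hz
      have := ha z hz
      beta_reduce at this
      rw [mem_erase]
      split_ifs at this with h1 h2
      · exact absurd this (by decide)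
      · exact ⟨h1, h2⟩
      · exact absurd this (by decide)
    have := card_le_card hsub
    rw [card_erase_of_mem hx] at this
    omega

/-! ### The construction -/

variable (n : ℕ) (φ : Finset ℕ → ℕ)

/-- The label of the complementary pair to which `A` belongs. -/
def ψ (A : Finset ℕ) : ℕ := if 0 ∈ A then φ A else φ (range (2 * n - 2) \ A)

/-- All `n`-subsets of the core, and each `(n-1)`-subset of the core together with the extra vertex
of its complementary pair. -/
def Fam : Finset (Finset ℕ) :=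
  (range (2 * n - 2)).powersetCard n ∪
    ((range (2 * n - 2)).powersetCard (n - 1)).image fun A => insert (2 * n - 2 + ψ n φ A) A

theorem mem_Fam {E : Finset ℕ} : E ∈ Fam n φ ↔
    (E ⊆ range (2 * n - 2) ∧ E.card = n) ∨
    ∃ A, A ⊆ range (2 * n - 2) ∧ A.card = n - 1 ∧ insert (2 * n - 2 + ψ n φ A) A = E := by
  simp only [Fam, mem_union, mem_powersetCard, mem_image, and_assoc]

theorem notMem_core {A : Finset ℕ} (hA : A ⊆ range (2 * n - 2)) (k : ℕ) :
    2 * n - 2 + k ∉ A := by
  intro h
  have := mem_range.mp (hA h)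
  omega

theorem ψ_compl (hn : 2 ≤ n) {A : Finset ℕ} (hA : A ⊆ range (2 * n - 2)) :
    ψ n φ (range (2 * n - 2) \ A) = ψ n φ A := by
  have h0 : 0 ∈ range (2 * n - 2) := mem_range.mpr (by omega)
  unfold ψ
  by_cases h : 0 ∈ A
  · rw [if_neg (by simp [h]), if_pos h]
    congr 1
    exact Finset.sdiff_sdiff_eq_self hA
  · rw [if_pos (by rw [mem_sdiff]; exact ⟨h0, h⟩), if_neg h]

theorem uniform_Fam (hn : 2 ≤ n) : Uniform n (Fam n φ) := by
  intro E hE
  rw [mem_Fam] at hE
  rcases hE with ⟨-, h⟩ | ⟨A, hA, hAc, rfl⟩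
  · exact h
  · rw [card_insert_of_notMem (notMem_core n hA _), hAc]
    omega

theorem inter_of_card {A B : Finset ℕ} (hA : A ⊆ range (2 * n - 2))
    (hB : B ⊆ range (2 * n - 2)) (h : 2 * n - 2 < A.card + B.card) : (A ∩ B).Nonempty := by
  rw [nonempty_iff_ne_empty]
  intro he
  have h1 : (A ∪ B).card ≤ 2 * n - 2 := by
    simpa using card_le_card (union_subset hA hB)
  have h2 := card_union_add_card_inter A B
  rw [he, card_empty] at h2
  omega

theorem clique_Fam (hn : 2 ≤ n) : IsClique (Fam n φ) := by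
  intro E hE E' hE'
  rw [mem_Fam] at hE hE'
  rcases hE with ⟨hE, hEc⟩ | ⟨A, hA, hAc, rfl⟩ <;> rcases hE' with ⟨hE', hEc'⟩ | ⟨B, hB, hBc, rfl⟩
  · exact inter_of_card n hE hE' (by omega)
  · obtain ⟨x, hx⟩ := inter_of_card n hE hB (by omega)
    rw [mem_inter] at hx
    exact ⟨x, mem_inter.mpr ⟨hx.1, mem_insert_of_mem hx.2⟩⟩
  · obtain ⟨x, hx⟩ := inter_of_card n hA hE' (by omega)
    rw [mem_inter] at hx
    exact ⟨x, mem_inter.mpr ⟨mem_insert_of_mem hx.1, hx.2⟩⟩
  · by_cases hAB : (A ∩ B).Nonempty
    · obtain ⟨x, hx⟩ := hAB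
      rw [mem_inter] at hx
      exact ⟨x, mem_inter.mpr ⟨mem_insert_of_mem hx.1, mem_insert_of_mem hx.2⟩⟩
    · have hB' : B = range (2 * n - 2) \ A := by
        apply eq_of_subset_of_card_le
        · intro x hx
          rw [mem_sdiff]
          exact ⟨hB hx, fun hxA => hAB ⟨x, mem_inter.mpr ⟨hxA, hx⟩⟩⟩
        · rw [card_sdiff_of_subset hA, card_range, hAc, hBc]
          omega
      have hψ : ψ n φ B = ψ n φ A := by rw [hB', ψ_compl n φ hn hA]
      refine ⟨2 * n - 2 + ψ n φ A, mem_inter.mpr ⟨mem_insert_self _ _, ?_⟩⟩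
      rw [hψ]
      exact mem_insert_self _ _

theorem not_colourable_two (hn : 2 ≤ n) : ¬ Colourable 2 (Fam n φ) := by
  rintro ⟨c, hc⟩
  have hcard : ∀ a : Fin 2, ((range (2 * n - 2)).filter fun x => c x = a).card ≤ n - 1 := by
    intro a
    by_contra hlt
    push Not at hlt
    obtain ⟨S, hS, hSc⟩ := exists_subset_card_eq
      (s := (range (2 * n - 2)).filter fun x => c x = a) (n := n) (by omega)
    refine hc S ((mem_Fam n φ).mpr (Or.inl ⟨fun x hx => (mem_filter.mp (hS hx)).1, hSc⟩))
      ⟨a, fun x hx => (mem_filter.mp (hS hx)).2⟩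
  have hsum : ((range (2 * n - 2)).filter fun x => c x = 0).card +
      ((range (2 * n - 2)).filter fun x => c x = 1).card = 2 * n - 2 := by
    have h := card_filter_add_card_filter_not (s := range (2 * n - 2)) (fun x => c x = 0)
    rw [card_range] at h
    have heq : (range (2 * n - 2)).filter (fun x => c x = 1) =
        (range (2 * n - 2)).filter (fun x => ¬ c x = 0) := by
      ext x
      simp only [mem_filter, and_congr_right_iff]
      intro _
      constructor
      · intro h1 h0
        rw [h0] at h1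
        exact absurd h1 (by decide)
      · intro h
        have := (c x).isLt
        apply Fin.ext
        have h' : (c x).val ≠ 0 := fun h0 => h (Fin.ext h0)
        simp
        omega
    rw [heq]
    exact h
  have h0 := hcard 0
  have h1 := hcard 1
  have hx : ∀ a : Fin 2, ((range (2 * n - 2)).filter fun x => c x = a).card = n - 1 := by
    intro a
    fin_cases a
    · show ((range (2 * n - 2)).filter fun x => c x = 0).card = n - 1
      omega
    · show ((range (2 * n - 2)).filter fun x => c x = 1).card = n - 1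
      omega
  -- the extra vertex of the pair
  set R := (range (2 * n - 2)).filter fun x => c x = 0 with hR
  have hRsub : R ⊆ range (2 * n - 2) := filter_subset _ _
  have hRc : (range (2 * n - 2)).filter (fun x => c x = 1) = range (2 * n - 2) \ R := by
    apply eq_of_subset_of_card_le
    · intro x hx
      rw [mem_filter] at hx
      rw [mem_sdiff, hR, mem_filter]
      refine ⟨hx.1, fun h => ?_⟩
      rw [h.2] at hx
      exact absurd hx.2 (by decide)
    · rw [card_sdiff_of_subset hRsub, card_range, hx 0, hx 1]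
      omega
  have key : ∀ a : Fin 2, c (2 * n - 2 + ψ n φ R) ≠ a := by
    intro a ha
    fin_cases a
    · refine hc (insert (2 * n - 2 + ψ n φ R) R)
        ((mem_Fam n φ).mpr (Or.inr ⟨R, hRsub, hx 0, rfl⟩)) ⟨0, ?_⟩
      intro x hx
      rcases mem_insert.mp hx with rfl | hx
      · exact ha
      · exact (mem_filter.mp hx).2
    · refine hc (insert (2 * n - 2 + ψ n φ R) (range (2 * n - 2) \ R))
        ((mem_Fam n φ).mpr (Or.inr ⟨range (2 * n - 2) \ R, sdiff_subset, ?_, ?_⟩)) ⟨1, ?_⟩
      · rw [← hRc]; exact hx 1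
      · rw [ψ_compl n φ hn hRsub]
      · intro x hx
        rcases mem_insert.mp hx with rfl | hx
        · exact ha
        · rw [← hRc] at hx
          exact (mem_filter.mp hx).2
  exact key _ rfl

theorem card_Fam (hn : 2 ≤ n) : (Fam n φ).card = (2 * n - 1).choose n := by
  unfold Fam
  rw [card_union_of_disjoint, card_powersetCard, card_image_of_injOn, card_powersetCard,
    card_range]
  · obtain ⟨m, rfl⟩ : ∃ m, n = m + 1 := ⟨n - 1, by omega⟩
    have h1 : 2 * (m + 1) - 1 = (2 * (m + 1) - 2) + 1 := by omega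
    rw [h1, Nat.choose_succ_succ]
    simp only [Nat.add_sub_cancel, Nat.succ_eq_add_one]
    omega
  · intro A hA B hB hAB
    rw [mem_coe, mem_powersetCard] at hA hB
    beta_reduce at hAB
    have hA' : (insert (2 * n - 2 + ψ n φ A) A).filter (· < 2 * n - 2) = A := by
      rw [filter_insert, if_neg (by omega)]
      exact filter_true_of_mem fun x hx => mem_range.mp (hA.1 hx)
    have hB' : (insert (2 * n - 2 + ψ n φ B) B).filter (· < 2 * n - 2) = B := by
      rw [filter_insert, if_neg (by omega)]
      exact filter_true_of_mem fun x hx => mem_range.mp (hB.1 hx)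
    rw [← hA', ← hB', hAB]
  · rw [disjoint_left]
    intro E hE hE'
    rw [mem_powersetCard] at hE
    rw [mem_image] at hE'
    obtain ⟨A, hA, rfl⟩ := hE'
    exact notMem_core n hE.1 _ (mem_insert_self _ _)

theorem vertices_Fam (hn : 2 ≤ n) (j : ℕ)
    (hφ : ∀ A, A ⊆ range (2 * n - 2) → A.card = n - 1 → 0 ∈ A → φ A < j)
    (hsurj : ∀ i < j, ∃ A, A ⊆ range (2 * n - 2) ∧ A.card = n - 1 ∧ 0 ∈ A ∧ φ A = i) :
    vertices (Fam n φ) = range (2 * n - 2 + j) := by
  ext x
  simp only [vertices, mem_biUnion, id, mem_range]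
  constructor
  · rintro ⟨E, hE, hx⟩
    rw [mem_Fam] at hE
    rcases hE with ⟨hE, -⟩ | ⟨A, hA, hAc, rfl⟩
    · have := mem_range.mp (hE hx)
      omega
    · rcases mem_insert.mp hx with rfl | hx
      · have : ψ n φ A < j := by
          unfold ψ
          split_ifs with h
          · exact hφ A hA hAc h
          · apply hφ _ sdiff_subset
            · rw [card_sdiff_of_subset hA, card_range]
              omega
            · rw [mem_sdiff]
              exact ⟨mem_range.mpr (by omega), h⟩
        omega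
      · have := mem_range.mp (hA hx)
        omega
  · intro hx
    by_cases hlt : x < 2 * n - 2
    · obtain ⟨S, h1, h2, h3⟩ := exists_subsuperset_card_eq
        (s := {x}) (t := range (2 * n - 2)) (n := n)
        (singleton_subset_iff.mpr (mem_range.mpr hlt)) (by simp; omega) (by simp; omega)
      exact ⟨S, (mem_Fam n φ).mpr (Or.inl ⟨h2, h3⟩), h1 (mem_singleton_self x)⟩
    · obtain ⟨A, hA, hAc, h0, hAφ⟩ := hsurj (x - (2 * n - 2)) (by omega)
      refine ⟨insert (2 * n - 2 + ψ n φ A) A, (mem_Fam n φ).mpr (Or.inr ⟨A, hA, hAc, rfl⟩), ?_⟩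
      have : ψ n φ A = x - (2 * n - 2) := by
        unfold ψ
        rw [if_pos h0, hAφ]
      rw [this]
      apply mem_insert.mpr
      left
      omega

/-- Number of complementary pairs of `(n-1)`-subsets of a `(2n-2)`-set. -/
theorem card_pairs (hn : 2 ≤ n) :
    (((range (2 * n - 2)).powersetCard (n - 1)).filter fun A => 0 ∈ A).card
      = (2 * n - 2).choose (n - 1) / 2 := by
  set P := (range (2 * n - 2)).powersetCard (n - 1) with hP
  have h0 : 0 ∈ range (2 * n - 2) := mem_range.mpr (by omega)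
  have h1 : (P.filter fun A => 0 ∈ A).card = (P.filter fun A => ¬ 0 ∈ A).card := by
    apply card_bij' (fun A _ => range (2 * n - 2) \ A) (fun A _ => range (2 * n - 2) \ A)
    · intro A hA
      rw [mem_filter, hP, mem_powersetCard] at hA ⊢
      refine ⟨⟨sdiff_subset, ?_⟩, by simp [hA.2]⟩
      rw [card_sdiff_of_subset hA.1.1, card_range, hA.1.2]
      omega
    · intro A hA
      rw [mem_filter, hP, mem_powersetCard] at hA ⊢
      refine ⟨⟨sdiff_subset, ?_⟩, by rw [mem_sdiff]; exact ⟨h0, hA.2⟩⟩
      rw [card_sdiff_of_subset hA.1.1, card_range, hA.1.2]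
      omega
    · intro A hA
      rw [mem_filter, hP, mem_powersetCard] at hA
      exact Finset.sdiff_sdiff_eq_self hA.1.1
    · intro A hA
      rw [mem_filter, hP, mem_powersetCard] at hA
      exact Finset.sdiff_sdiff_eq_self hA.1.1
  have h2 := card_filter_add_card_filter_not (s := P) (fun A => 0 ∈ A)
  have h3 : P.card = (2 * n - 2).choose (n - 1) := by
    rw [hP, card_powersetCard, card_range]
  rw [← h3]
  omega

theorem exists_label (hn : 2 ≤ n) (j : ℕ) (hj1 : 1 ≤ j)
    (hj2 : j ≤ (2 * n - 2).choose (n - 1) / 2) : ∃ φ : Finset ℕ → ℕ,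
      (∀ A, A ⊆ range (2 * n - 2) → A.card = n - 1 → 0 ∈ A → φ A < j) ∧
      (∀ i < j, ∃ A, A ⊆ range (2 * n - 2) ∧ A.card = n - 1 ∧ 0 ∈ A ∧ φ A = i) := by
  classical
  set P := ((range (2 * n - 2)).powersetCard (n - 1)).filter fun A => 0 ∈ A with hP
  have hc : P.card = (2 * n - 2).choose (n - 1) / 2 := card_pairs n hn
  let e : P ≃ Fin P.card := P.equivFin
  refine ⟨fun A => if h : A ∈ P then min (e ⟨A, h⟩).val (j - 1) else 0, ?_, ?_⟩
  · intro A hA hAc h0
    have hmem : A ∈ P := by
      rw [hP, mem_filter, mem_powersetCard]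
      exact ⟨⟨hA, hAc⟩, h0⟩
    simp only [dif_pos hmem]
    omega
  · intro i hi
    have hi' : i < P.card := by omega
    obtain ⟨A, hA⟩ := e.surjective ⟨i, hi'⟩
    have hmem : A.1 ∈ P := A.2
    have hmem' : (A.1 ⊆ range (2 * n - 2) ∧ A.1.card = n - 1) ∧ 0 ∈ A.1 := by
      have h := hmem
      simpa only [hP, mem_filter, mem_powersetCard] using h
    refine ⟨A.1, hmem'.1.1, hmem'.1.2, hmem'.2, ?_⟩
    simp only [dif_pos hmem]
    have : e ⟨A.1, hmem⟩ = ⟨i, hi'⟩ := hA
    rw [this]
    simp only
    omega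

/-- For every `n ≥ 2`, every integer from `2n - 1` to `2n - 2 + C(2n-2, n-1)/2` is the number of
vertices of a 3-chromatic `n`-uniform clique; this clique can be taken with `C(2n-1, n)` edges. -/
theorem result (n : ℕ) (hn : 2 ≤ n) (v : ℕ) (h1 : 2 * n - 1 ≤ v)
    (h2 : v ≤ 2 * n - 2 + (2 * n - 2).choose (n - 1) / 2) :
    ∃ F : Finset (Finset ℕ), Uniform n F ∧ IsClique F ∧ ThreeChromatic F ∧
      (vertices F).card = v ∧ F.card = (2 * n - 1).choose n := by
  obtain ⟨φ, hφ, hsurj⟩ := exists_label n hn (v - (2 * n - 2)) (by omega) (by omega)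
  refine ⟨Fam n φ, uniform_Fam n φ hn, clique_Fam n φ hn,
    ⟨colourable_three hn (uniform_Fam n φ hn) (clique_Fam n φ hn), not_colourable_two n φ hn⟩,
    ?_, card_Fam n φ hn⟩
  rw [vertices_Fam n φ hn _ hφ hsurj, card_range]
  omega

end Pool.Agent.Results.MP_87840f_co.VertexSpectrum
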